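import Pool.Agent.MNE.StmtsA

/-!
# Row RG3: region II, the summand `B^y` dominates
-/

set_option autoImplicit false

namespace Pool.Agent.MNE.H38

open Finset

/-- region II: `g` is small -/
theorem small_g {f g : ℕ} (hf : 10 ^ 11 ≤ f) (hgf : g < f) (hg : 0 < g)
    (h : (2 * f * g) ^ 16 ≤ (f ^ 2 + g ^ 2) ^ 15) : 3 * g ^ 2 ≤ f ^ 2 := by
  have h1 : f ^ 2 + g ^ 2 ≤ 2 * f ^ 2 := by nlinarith
  have h2 : (2 * f * g) ^ 16 ≤ (2 * f ^ 2) ^ 15 := h.trans (Nat.pow_le_pow_left h1 15)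
  have h3 : 2 * g ^ 16 ≤ f ^ 14 := by
    have e1 : (2 * f * g) ^ 16 = (2 ^ 15 * f ^ 16) * (2 * g ^ 16) := by ring
    have e2 : (2 * f ^ 2) ^ 15 = (2 ^ 15 * f ^ 16) * f ^ 14 := by ring
    rw [e1, e2] at h2
    exact Nat.le_of_mul_le_mul_left h2 (by positivity)
  by_contra h4
  rw [not_le] at h4
  have h5 : (f ^ 2) ^ 8 < (3 * g ^ 2) ^ 8 := Nat.pow_lt_pow_left h4 (by norm_num)
  have e3 : (f ^ 2) ^ 8 = f ^ 14 * f ^ 2 := by ring
  have e4 : (3 * g ^ 2) ^ 8 = 6561 * g ^ 16 := by ring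
  rw [e3, e4] at h5
  have h6 : f ^ 14 * f ^ 2 < 6561 * f ^ 14 :=
    lt_of_lt_of_le h5 (Nat.mul_le_mul_left 6561 (by omega))
  have h8 : f ^ 2 < 6561 := by
    by_contra h9
    rw [not_lt] at h9
    have := Nat.mul_le_mul_left (f ^ 14) h9
    rw [Nat.mul_comm (f ^ 14) 6561] at this
    omega
  have h10 : (10 ^ 11) ^ 2 ≤ f ^ 2 := Nat.pow_le_pow_left hf 2
  norm_num at h10
  omega

/-- RG3 -/
theorem rg3 (hbas : BasStmt) (hclf : ClfStmt) : Rg3Stmt := by
  intro f g x y z hs hf hm h16 hCB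
  obtain ⟨_, hxz, _, _, _, hBC, hAC, _, _, hsum, _, _, _, _, _, _, hco, _⟩ := hbas f g x y z hs
  have hg := hs.hg
  have hgf : g < f := by have := hs.hd; omega
  have hf0 : 0 < f := by omega
  obtain ⟨A, hA⟩ : ∃ A, A = f ^ 2 - g ^ 2 := ⟨_, rfl⟩
  obtain ⟨B, hB⟩ : ∃ B, B = 2 * f * g := ⟨_, rfl⟩
  obtain ⟨C, hC⟩ : ∃ C, C = f ^ 2 + g ^ 2 := ⟨_, rfl⟩
  have h3g := small_g hf hgf hg h16
  have heq := hs.eq
  rw [← hA, ← hB, ← hC] at heq
  rw [← hB, ← hC] at h16 hCB hBC ⊢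
  rw [← hA] at hAC hsum hco
  rw [← hC] at hAC hsum
  have hfg : g ^ 2 ≤ f ^ 2 := Nat.pow_le_pow_left hgf.le 2
  have hA1 : A + g ^ 2 = f ^ 2 := by omega
  have hf22 : 10 ^ 22 ≤ f ^ 2 := by
    calc 10 ^ 22 = (10 ^ 11) ^ 2 := by norm_num
      _ ≤ f ^ 2 := Nat.pow_le_pow_left hf 2
  have hC2A : C ≤ 2 * A := by omega
  have hf2A : f ^ 2 ≤ 2 * A := by omega
  have hAf : A ≤ f ^ 2 := by omega
  have hCf : f ^ 2 ≤ C := by omega
  have hC2f : C ≤ 2 * f ^ 2 := by omega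
  have hA0 : 0 < A := by omega
  have hC0 : 0 < C := by omega
  have hB0 : 0 < B := by rw [hB]; positivity
  have hfB : f ≤ B := by rw [hB]; nlinarith
  -- `4 B ≤ C`
  have h4B : 4 * B ≤ C := by
    by_contra h1
    rw [not_le] at h1
    have h2 : C ^ 16 < (4 * B) ^ 16 := Nat.pow_lt_pow_left h1 (by norm_num)
    have e1 : C ^ 16 = C ^ 15 * C := by ring
    have e2 : (4 * B) ^ 16 = 4 ^ 16 * B ^ 16 := by ring
    rw [e1, e2] at h2
    have h3 : 0 < C ^ 15 := by positivity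
    have h4 : C ^ 15 * C < 4 ^ 16 * C ^ 15 := lt_of_lt_of_le h2 (Nat.mul_le_mul_left _ h16)
    have h5 : C < 4 ^ 16 := by
      by_contra h6
      rw [not_lt] at h6
      have := Nat.mul_le_mul_left (C ^ 15) h6
      rw [Nat.mul_comm (C ^ 15) (4 ^ 16)] at this
      omega
    norm_num at h5
    omega
  have h2B : 2 * B ≤ A := by omega
  have hAz : A ^ z ≤ 2 * B ^ y := by rw [← heq]; omega
  -- `z < y`
  have hzy : z < y := by
    by_contra h1
    rw [not_lt] at h1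
    have h2 : B ^ y ≤ B ^ z := Nat.pow_le_pow_right hB0 h1
    have h3 : (2 * B) ^ z ≤ A ^ z := Nat.pow_le_pow_left h2B z
    rw [Nat.mul_pow] at h3
    have h4 : 2 ^ z * B ^ z ≤ 2 * B ^ z := h3.trans (hAz.trans (Nat.mul_le_mul_left 2 h2))
    have h5 : 2 ^ z ≤ 2 := Nat.le_of_mul_le_mul_right h4 (by positivity)
    have h6 : 2 ^ 2 ≤ 2 ^ z := Nat.pow_le_pow_right (by norm_num) (by have := hs.hx; omega)
    omega
  have hy100 : 100 ≤ y := by
    rcases le_max_iff.1 hm with h | h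
    · omega
    · exact h
  have hz51 : 51 ≤ z := by
    have h1 : f ^ y < f ^ (2 * z) := by
      calc f ^ y ≤ B ^ y := Nat.pow_le_pow_left hfB y
        _ < A ^ z := by
          rw [← heq]
          have : 0 < C ^ x := by positivity
          omega
        _ ≤ (f ^ 2) ^ z := Nat.pow_le_pow_left hAf z
        _ = f ^ (2 * z) := by rw [← pow_mul]
    have h2 : y < 2 * z := (Nat.pow_lt_pow_iff_right (by omega)).1 h1
    omega
  by_contra hcon
  rw [not_le] at hcon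
  -- logarithms in units of `log 2`
  have hL : 0 < Real.log 2 := Real.log_pos (by norm_num)
  obtain ⟨L, hLd⟩ : ∃ L, L = Real.log 2 := ⟨_, rfl⟩
  rw [← hLd] at hL
  have hAR : (0 : ℝ) < A := by exact_mod_cast hA0
  have hBR : (0 : ℝ) < B := by exact_mod_cast hB0
  have hCR : (0 : ℝ) < C := by exact_mod_cast hC0
  have hfR : (0 : ℝ) < f := by exact_mod_cast hf0
  have l1 : 43 * (y * Real.log B) < 50 * (x * Real.log C) := by
    have h1 : ((B : ℝ) ^ y) ^ 43 < ((C : ℝ) ^ x) ^ 50 := by exact_mod_cast hcon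
    have h2 := Real.log_lt_log (by positivity) h1
    simpa [Real.log_pow] using h2
  have l2 : z * Real.log A ≤ L + y * Real.log B := by
    have h1 : (A : ℝ) ^ z ≤ 2 * (B : ℝ) ^ y := by exact_mod_cast hAz
    have h2 := Real.log_le_log (by positivity) h1
    rw [Real.log_mul (by norm_num) (by positivity), Real.log_pow, Real.log_pow, ← hLd] at h2
    exact h2
  have l3 : Real.log C ≤ L + Real.log A := by
    have h1 : (C : ℝ) ≤ 2 * A := by exact_mod_cast hC2A
    have h2 := Real.log_le_log hCR h1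
    rwa [Real.log_mul (by norm_num) hAR.ne', ← hLd] at h2
  have l4 : 2 * Real.log f ≤ L + Real.log A := by
    have h1 : (f : ℝ) ^ 2 ≤ 2 * A := by exact_mod_cast hf2A
    have h2 := Real.log_le_log (by positivity) h1
    rw [Real.log_mul (by norm_num) hAR.ne', ← hLd, Real.log_pow] at h2
    exact_mod_cast h2
  have l5 : 36 * L ≤ Real.log f := by
    have h1 : (2 : ℝ) ^ 36 ≤ f := by
      have : 2 ^ 36 ≤ f := le_trans (by norm_num) hf
      exact_mod_cast this
    have h2 := Real.log_le_log (by positivity) h1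
    rw [Real.log_pow, ← hLd] at h2
    exact_mod_cast h2
  have l6 : Real.log A ≤ 2 * Real.log f := by
    have h1 : (A : ℝ) ≤ (f : ℝ) ^ 2 := by exact_mod_cast hAf
    have h2 := Real.log_le_log hAR h1
    rw [Real.log_pow] at h2
    exact_mod_cast h2
  have l7 : Real.log C ≤ L + 2 * Real.log f := by linarith
  have hzR : (51 : ℝ) ≤ z := by exact_mod_cast hz51
  -- `x` is large
  have hx1 : (845 : ℝ) * z ≤ 1000 * x := by
    by_contra h1
    rw [not_le] at h1
    have hx0 : (0 : ℝ) ≤ x := Nat.cast_nonneg _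
    have h2 : 50 * (x * Real.log C) ≤ 50 * (x * (L + Real.log A)) := by
      have := mul_le_mul_of_nonneg_left l3 hx0
      linarith
    have h3' : (1000 * (x : ℝ)) * (L + Real.log A) ≤ (845 * z) * (L + Real.log A) :=
      mul_le_mul_of_nonneg_right h1.le (by linarith)
    have h3 : 1000 * (x * (L + Real.log A)) ≤ 845 * (z * L) + 845 * (z * Real.log A) :=
      le_trans (le_of_eq (by ring)) (h3'.trans (le_of_eq (by ring)))
    have h4 : 71 * L ≤ Real.log A := by linarith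
    have h5 : 71 * (z * L) ≤ z * Real.log A :=
      le_trans (le_of_eq (by ring)) (mul_le_mul_of_nonneg_left h4 (by linarith : (0 : ℝ) ≤ z))
    have h6 : 51 * L ≤ z * L := mul_le_mul_of_nonneg_right hzR hL.le
    linarith
  -- the inequality CLF
  set k : ℕ := z / 4 with hk
  have hk1 : 4 * k ≤ z := Nat.mul_div_le z 4
  have hk2 : z ≤ 4 * k + 3 := by omega
  have hxN : 845 * z ≤ 1000 * x := by exact_mod_cast hx1
  have hdvd : ((f : ℕ) : ℤ) ^ y ∣ (A : ℤ) ^ z - (C : ℤ) ^ x := by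
    have h1 : (A : ℤ) ^ z - (C : ℤ) ^ x = (B : ℤ) ^ y := by
      have : ((C ^ x + B ^ y : ℕ) : ℤ) = ((A ^ z : ℕ) : ℤ) := by rw [heq]
      push_cast at this
      linarith
    rw [h1]
    refine pow_dvd_pow_of_dvd ?_ y
    rw [hB]
    push_cast
    exact ⟨2 * g, by ring⟩
  have key := hclf A C f x y z k (by exact_mod_cast hA0) (by exact_mod_cast hC0)
    (by exact_mod_cast hf0) (by exact_mod_cast (by omega : A + C = 2 * f ^ 2))
    (Nat.isCoprime_iff_coprime.2 hco) (by omega) (by omega) hxz.le (by omega) hdvd 1 le_rfl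
  push_cast at key
  have hratio : 1 + 2 * (f : ℝ) ^ 2 / (C * 1) ≤ 2 ^ 2 := by
    have h1 : (f : ℝ) ^ 2 ≤ C := by exact_mod_cast hCf
    have h2 : 2 * (f : ℝ) ^ 2 / (C * 1) ≤ 2 := by
      rw [mul_one, div_le_iff₀ hCR]
      linarith
    linarith
  have hratio0 : 0 < 1 + 2 * (f : ℝ) ^ 2 / (C * 1) := by positivity
  have hlog := Real.log_le_log (by positivity) key
  have l8 : Real.log (1 + 2 * (f : ℝ) ^ 2 / (C * 1)) ≤ 2 * L := by
    have h2 := Real.log_le_log hratio0 hratio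
    rw [Real.log_pow, ← hLd] at h2
    exact_mod_cast h2
  rw [Real.log_mul (by positivity) (by positivity), Real.log_mul (by norm_num) (by positivity),
    Real.log_mul (by positivity) (by positivity), Real.log_mul (by positivity) (by positivity),
    Real.log_mul (by positivity) (by positivity), Real.log_pow, Real.log_pow, Real.log_pow,
    Real.log_pow, Real.log_pow, Real.log_pow] at hlog
  have l9 : Real.log (4 : ℝ) = 2 * L := by
    have : (4 : ℝ) = 2 ^ 2 := by norm_num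
    rw [this, Real.log_pow, ← hLd]
    norm_num
  rw [← hLd, l9, Real.log_one] at hlog
  have hzx : ((z - x : ℕ) : ℝ) = z - x := by rw [Nat.cast_sub hxz.le]
  rw [hzx] at hlog
  push_cast at hlog
  have hkR : (0 : ℝ) ≤ k := Nat.cast_nonneg _
  have hxR : (x : ℝ) ≤ z := by exact_mod_cast hxz.le
  have hk1R : 4 * (k : ℝ) ≤ z := by exact_mod_cast hk1
  have hk2R : (z : ℝ) ≤ 4 * k + 3 := by exact_mod_cast hk2
  have hx0 : (0 : ℝ) ≤ x := Nat.cast_nonneg _
  have t1 : ((z : ℝ) - x) * Real.log A ≤ (z - x) * (2 * Real.log f) :=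
    mul_le_mul_of_nonneg_left l6 (by linarith)
  have t2 : (k : ℝ) * Real.log C ≤ k * (L + 2 * Real.log f) := mul_le_mul_of_nonneg_left l7 hkR
  have t3 : ((x : ℝ) + k) * Real.log (1 + 2 * (f : ℝ) ^ 2 / (C * 1)) ≤ (x + k) * (2 * L) :=
    mul_le_mul_of_nonneg_left l8 (by linarith)
  -- (2 k - 2 (z - x)) φ ≤ (1 + 5 k + 2 x) L
  have t4 : (2 * (k : ℝ) - 2 * (z - x)) * Real.log f ≤ (1 + 5 * k + 2 * x) * L := by
    linarith
  have t5 : (19 * (z : ℝ) - 150) / 100 ≤ 2 * (k : ℝ) - 2 * (z - x) := by linarith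
  have t6 : 0 ≤ (19 * (z : ℝ) - 150) / 100 := by linarith
  have t7 : (19 * (z : ℝ) - 150) / 100 * (36 * L) ≤ (2 * (k : ℝ) - 2 * (z - x)) * Real.log f :=
    mul_le_mul t5 l5 (by positivity) (t6.trans t5)
  have t8 : (1 + 5 * (k : ℝ) + 2 * x) * L ≤ (1 + 13 / 4 * z) * L :=
    mul_le_mul_of_nonneg_right (by linarith) hL.le
  have t9 : (19 * (z : ℝ) - 150) / 100 * 36 ≤ 1 + 13 / 4 * z := by
    have h1 : ((19 * (z : ℝ) - 150) / 100 * 36) * L ≤ (1 + 13 / 4 * z) * L := by linarith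
    exact le_of_mul_le_mul_right h1 hL
  linarith

end Pool.Agent.MNE.H38
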